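import Mathlib
import Pool.Agent.H.MP_74870a_nt.A

open Finset

namespace Pool.Agent.H.MP_c9c571_nt

open Pool.Agent.H.MP_4d1f21_nt Pool.Agent.H.MP_74870a_nt

variable {A : Type*} [CommRing A]

def u (x : A) (iv : ℕ → A) (n j : ℕ) : A :=
  if n ∣ j then 1 else if j % 2 = 1 then 1 - x ^ j else iv j

def U (x : A) (iv : ℕ → A) (n T : ℕ) : A := ∏ j ∈ range T, u x iv n (j + 1)

def g (x : A) (iv : ℕ → A) (i : ℕ) : A := if i % 2 = 1 then -(x ^ i * iv i) else x ^ i * iv i

def lam (x : A) (iv : ℕ → A) (T : ℕ) : A := ∑ i ∈ range T, g x iv (i + 1)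

theorem prod_one_add {e : A} (he : e ^ 2 = 0) (y : ℕ → A) (T : ℕ) :
    ∏ i ∈ range T, (1 + e * y i) = 1 + e * ∑ i ∈ range T, y i := by
  have := prod_lin he (range T) (fun _ => 1) y
  simpa using this

section
variable {x : A} {iv : ℕ → A} {n s : ℕ} (hn : n = 2 * s + 1) (he : (x ^ n - 1) ^ 2 = 0)
  (hiv : ∀ j, ¬ n ∣ j → (1 - x ^ j) * iv j = 1)

theorem nd {n t i : ℕ} (h0 : 0 < i) (h1 : i < n) : ¬ n ∣ n * t + i := fun hh =>
  absurd (Nat.le_of_dvd h0 ((Nat.dvd_add_right (Dvd.intro _ rfl)).1 hh)) (by omega)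

theorem nd0 {n i : ℕ} (h0 : 0 < i) (h1 : i < n) : ¬ n ∣ i := fun hh =>
  absurd (Nat.le_of_dvd h0 hh) (by omega)

include he in
theorem pw (t : ℕ) : x ^ (n * t) = 1 + (x ^ n - 1) * t := by
  rw [← one_add_pow he, pow_mul]; congr 1; ring

include hiv in
theorem U_Np (T : ℕ) : U x iv n T * Np x n 0 T = Np x n 1 T := by
  rw [U, Np, Np, ← prod_mul_distrib]
  refine prod_congr rfl fun j _ => ?_
  rw [u]
  by_cases h : n ∣ j + 1
  · simp [h]
  · rcases Nat.mod_two_eq_zero_or_one (j + 1) with h2 | h2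
    · simp only [h, h2, if_false, not_false_iff, and_true, if_true, zero_ne_one]
      rw [mul_comm]; exact hiv _ h
    · simp [h, h2]

include he hiv in
theorem iv_shift (t i : ℕ) (h0 : 0 < i) (h1 : i < n) :
    1 - x ^ (n * t + i) = (1 - x ^ i) * (1 - (x ^ n - 1) * (t * (x ^ i * iv i))) ∧
    iv (n * t + i) = iv i * (1 + (x ^ n - 1) * (t * (x ^ i * iv i))) := by
  have a1 := hiv i (nd0 h0 h1)
  have a2 := hiv _ (nd (t := t) h0 h1)
  have a3 : 1 - x ^ (n * t + i) = (1 - x ^ i) * (1 - (x ^ n - 1) * (t * (x ^ i * iv i))) := by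
    rw [pow_add, pw he]
    linear_combination ((x ^ n - 1) * t * x ^ i) * a1
  refine ⟨a3, ?_⟩
  rw [a3] at a2
  linear_combination (iv i * (1 + (x ^ n - 1) * (t * (x ^ i * iv i)))) * a2
    - iv (n * t + i) * (1 - ((x ^ n - 1) * (t * (x ^ i * iv i))) ^ 2) * a1
    + iv (n * t + i) * (t * (x ^ i * iv i)) ^ 2 * he

include hn he hiv in
theorem u_even (r i : ℕ) (h0 : 0 < i) (h1 : i < n) :
    u x iv n (n * (2 * r) + i) = u x iv n i * (1 + (x ^ n - 1) * (2 * r * g x iv i)) := by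
  obtain ⟨a1, a2⟩ := iv_shift he hiv (2 * r) i h0 h1
  have hp : (n * (2 * r) + i) % 2 = i % 2 := by
    rw [show n * (2 * r) = 2 * (n * r) by ring]; omega
  rw [u, u, g, if_neg (nd h0 h1), if_neg (nd0 h0 h1), hp]
  split_ifs
  · rw [a1]; push_cast; ring
  · rw [a2]; push_cast; ring

include hn he hiv in
theorem u_odd (r i : ℕ) (h0 : 0 < i) (h1 : i < n) :
    u x iv n (n * (2 * r + 1) + i) * u x iv n i
      = 1 + (x ^ n - 1) * (-(2 * r + 1) * g x iv i) := by
  obtain ⟨a1, a2⟩ := iv_shift he hiv (2 * r + 1) i h0 h1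
  have a3 := hiv i (nd0 h0 h1)
  have hp : (n * (2 * r + 1) + i) % 2 = (i + 1) % 2 := by
    rw [show n * (2 * r + 1) = 2 * (n * r) + n by ring]; omega
  rw [u, u, g, if_neg (nd h0 h1), if_neg (nd0 h0 h1), hp]
  rcases Nat.mod_two_eq_zero_or_one i with h2 | h2
  · rw [if_pos (by omega), if_neg (by omega), if_neg (by omega), a1]
    push_cast
    linear_combination (1 - (x ^ n - 1) * ((2 * r + 1) * (x ^ i * iv i))) * a3
  · rw [if_neg (by omega), if_pos h2, if_pos h2, a2]
    push_cast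
    linear_combination (1 + (x ^ n - 1) * ((2 * r + 1) * (x ^ i * iv i))) * a3

include hn he hiv in
theorem U_ext (r T : ℕ) (hT : T < n) : U x iv n (n * (2 * r) + T)
    = U x iv n (n * (2 * r)) * U x iv n T * (1 + (x ^ n - 1) * (2 * r * lam x iv T)) := by
  rw [U, prod_range_add, ← U, mul_assoc, lam, mul_sum, ← prod_one_add he, U, U, ← prod_mul_distrib]
  congr 1
  refine prod_congr rfl fun i hi => ?_
  rw [add_assoc, u_even hn he hiv r (i + 1) (by omega) (by have := mem_range.1 hi; omega)]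

include hn he hiv in
theorem U_full (r : ℕ) : U x iv n (n * (2 * r)) = 1 - (x ^ n - 1) * (r * lam x iv (2 * s)) := by
  induction r with
  | zero => simp [U]
  | succ r ih =>
    have e1 : n * (2 * (r + 1)) = (n * (2 * r) + 2 * s) + 1 + 2 * s + 1 := by rw [hn]; ring
    have e2 : n * (2 * r) + 2 * s + 1 = n * (2 * r + 1) := by rw [hn]; ring
    have h1 := U_ext hn he hiv r (2 * s) (by omega)
    have h2 : (∏ i ∈ range (2 * s), u x iv n (n * (2 * r + 1) + i + 1)) * U x iv n (2 * s)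
        = 1 + (x ^ n - 1) * (-(2 * r + 1) * lam x iv (2 * s)) := by
      rw [lam, mul_sum, ← prod_one_add he, U, ← prod_mul_distrib]
      refine prod_congr rfl fun i hi => ?_
      rw [add_assoc, u_odd hn he hiv r (i + 1) (by omega) (by have := mem_range.1 hi; omega)]
    have h3 : U x iv n (n * (2 * (r + 1))) = U x iv n (n * (2 * r) + 2 * s)
        * ∏ i ∈ range (2 * s), u x iv n (n * (2 * r + 1) + i + 1) := by
      rw [U]
      conv_lhs => rw [e1]
      rw [prod_range_succ, ← e1, prod_range_add, prod_range_succ, e2, ← U]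
      simp [u]
    rw [h3, h1, ih]
    push_cast
    linear_combination (1 - (x ^ n - 1) * (r * lam x iv (2 * s)))
      * (1 + (x ^ n - 1) * (2 * r * lam x iv (2 * s))) * h2
      + lam x iv (2 * s) ^ 2 * (-(2 * r ^ 2) - r * (2 * r + 1)
        + 2 * r ^ 2 * (2 * r + 1) * (x ^ n - 1) * lam x iv (2 * s)) * he

include hn he hiv in
theorem U_block (r T : ℕ) (hT : T < n) : U x iv n (n * (2 * r) + T)
    = U x iv n T * (1 + (x ^ n - 1) * (r * (2 * lam x iv T - lam x iv (2 * s)))) := by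
  rw [U_ext hn he hiv r T hT, U_full hn he hiv]
  linear_combination (-(U x iv n T * 2 * r ^ 2 * lam x iv T * lam x iv (2 * s))) * he

include he hiv in
theorem f_refl (a b : ℕ) (hab : a + b = n) (ha : 0 < a) (hb : 0 < b) :
    (x ^ n - 1) * (x ^ a * iv a + x ^ b * iv b + 1) = 0 := by
  have a1 := hiv a (nd0 ha (by omega))
  have a2 := hiv b (nd0 hb (by omega))
  have a3 : x ^ n = x ^ a * x ^ b := by rw [← hab, pow_add]
  have key : x ^ a * iv a + x ^ b * iv b + 1 = -(x ^ n - 1) * iv a * iv b := by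
    rw [a3]
    linear_combination (-iv b) * a1 + (-1 - x ^ a * iv a) * a2 + (-iv b * x ^ b + iv b - 1 + 1) * a1
      - (iv b - iv b * x ^ b) * a1 + (-(x ^ b * iv b) + x ^ b * iv b) * a2
  rw [key]
  linear_combination (-(iv a * iv b)) * he

include hn he hiv in
theorem lam_refl (k d : ℕ) (h : k + d = s) :
    (x ^ n - 1) * (lam x iv (2 * k) + lam x iv (2 * d) - lam x iv (2 * s)) = 0 := by
  induction d generalizing k with
  | zero => rw [← h]; simp [lam]
  | succ d ih =>
    have h1 := ih (k + 1) (by omega)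
    have h2 := f_refl he hiv (2 * k + 1) (2 * d + 1 + 1) (by omega) (by omega) (by omega)
    have h3 := f_refl he hiv (2 * k + 1 + 1) (2 * d + 1) (by omega) (by omega) (by omega)
    have e : ∀ m, lam x iv (2 * (m + 1)) = lam x iv (2 * m) - x ^ (2 * m + 1) * iv (2 * m + 1)
        + x ^ (2 * m + 1 + 1) * iv (2 * m + 1 + 1) := fun m => by
      rw [lam, show 2 * (m + 1) = 2 * m + 1 + 1 by ring, sum_range_succ, sum_range_succ, ← lam, g, g,
        if_pos (by omega), if_neg (by omega)]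
      ring
    rw [e] at h1 ⊢
    linear_combination h1 + h2 - h3

include hn in
theorem U_succ (m : ℕ) (hm : m < s) :
    U x iv n (2 * (m + 1)) = U x iv n (2 * m) * (1 - x ^ (2 * m + 1)) * iv (2 * m + 1 + 1) := by
  rw [U, show 2 * (m + 1) = 2 * m + 1 + 1 by ring, prod_range_succ, prod_range_succ, ← U, u, u,
    if_neg (nd0 (by omega) (by omega)), if_neg (nd0 (by omega) (by omega)),
    if_pos (by omega), if_neg (by omega)]

include hn he hiv in
theorem U_refl0 (k d : ℕ) (h : k + d = s) :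
    (x ^ n - 1) * (x ^ k * U x iv n (2 * k) * U x iv n (2 * s)) = (x ^ n - 1) * U x iv n (2 * d) := by
  induction k generalizing d with
  | zero => rw [← h]; simp [U]
  | succ k ih =>
    have h1 := ih (d + 1) (by omega)
    rw [U_succ hn d (by omega)] at h1
    rw [U_succ hn k (by omega)]
    have a1 := hiv (2 * k + 1 + 1) (nd0 (by omega) (by omega))
    have a2 := hiv (2 * d + 1 + 1) (nd0 (by omega) (by omega))
    have a3 : x ^ n = x ^ (2 * k + 1) * x ^ (2 * d + 1) * x := by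
      rw [← pow_add, ← pow_succ]; congr 1; omega
    have key : (x ^ n - 1) * (x * (1 - x ^ (2 * k + 1)) * (1 - x ^ (2 * d + 1)))
        = (x ^ n - 1) * ((1 - x ^ (2 * k + 1 + 1)) * (1 - x ^ (2 * d + 1 + 1))) := by
      have : x * (1 - x ^ (2 * k + 1)) * (1 - x ^ (2 * d + 1))
          - (1 - x ^ (2 * k + 1 + 1)) * (1 - x ^ (2 * d + 1 + 1)) = (1 - x) * (x ^ n - 1) := by
        rw [a3]; ring
      linear_combination (x ^ n - 1) * this + (1 - x) * he
    linear_combination (x * (1 - x ^ (2 * k + 1)) * iv (2 * k + 1 + 1)) * h1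
      + (U x iv n (2 * d) * iv (2 * k + 1 + 1) * iv (2 * d + 1 + 1)) * key
      + ((x ^ n - 1) * U x iv n (2 * d) * (1 - x ^ (2 * d + 1 + 1)) * iv (2 * d + 1 + 1)) * a1
      + ((x ^ n - 1) * U x iv n (2 * d)) * a2

include hiv in
theorem U_unit (T : ℕ) : IsUnit (U x iv n T) := by
  refine IsUnit.prod_iff.2 fun j _ => ?_
  rw [u]
  split_ifs with h1 h2
  · exact isUnit_one
  · exact IsUnit.of_mul_eq_one _ (hiv _ h1)
  · exact IsUnit.of_mul_eq_one_right _ (hiv _ h1)

include hn he hiv in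
theorem U_refl (v k d : ℕ) (hs : s = 2 * v) (h : k + d = s) :
    (x ^ n - 1) * (x ^ k * U x iv n (2 * k)) = (x ^ n - 1) * (x ^ v * U x iv n (2 * d)) := by
  have h1 := U_refl0 hn he hiv k d h
  have h2 := U_refl0 hn he hiv v v (by omega)
  have h3 : (x ^ n - 1) * (x ^ v * U x iv n (2 * s)) = x ^ n - 1 := by
    apply ((U_unit hiv (2 * v)).mul_right_inj).1
    linear_combination h2
  linear_combination x ^ v * h1 - x ^ k * U x iv n (2 * k) * h3

end

theorem anti [Algebra ℚ A] (f : ℕ → A) (s : ℕ) (h : ∀ k d, k + d = s → f k + f d = 0) :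
    ∑ k ∈ range (s + 1), f k = 0 := by
  have h1 : ∑ k ∈ range (s + 1), f k + ∑ k ∈ range (s + 1), f k = 0 := by
    conv_lhs => rw [← sum_range_reflect f (s + 1)]; arg 2; rw [sum_range_reflect f (s + 1)]
    rw [← sum_add_distrib]
    exact sum_eq_zero fun k hk => h _ _ (by have := mem_range.1 hk; omega)
  have h2 : algebraMap ℚ A (1 / 2) * 2 = 1 := by
    rw [show (2 : A) = algebraMap ℚ A 2 from (map_ofNat _ 2).symm, ← map_mul]; norm_num
  linear_combination algebraMap ℚ A (1 / 2) * h1 - (∑ k ∈ range (s + 1), f k) * h2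

end Pool.Agent.H.MP_c9c571_nt
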