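import Mathlib

open Finset

namespace Pool.Agent.H.MP_c9c571_nt

variable {K : Type*} [Field K]

def F1 (q Y : K) (k : ℕ) : K := q ^ k * (1 + q ^ (4 * k + 1)) *
  ∏ j ∈ range k, (Y - q ^ (4 * j + 2)) * (1 - Y * q ^ (4 * j + 2)) * (1 - q ^ (4 * j + 2)) /
    ((Y - q ^ (4 * j + 4)) * (1 - Y * q ^ (4 * j + 4)) * (1 - q ^ (4 * j + 4)))

def H1 (q Y : K) (k : ℕ) : K := q ^ k *
  ∏ j ∈ range k, (Y * q ^ 2 - q ^ (4 * j)) * (1 - Y * q ^ (4 * j + 2)) * (1 - q ^ (4 * j + 2)) /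
    (q ^ 2 * (Y - q ^ (4 * j + 4)) * (1 - Y * q ^ (4 * j + 8)) * (1 - q ^ (4 * j + 4)))

section
variable {q : K} (hq : q ≠ 0) (h : ∀ j, 0 < j → 1 - q ^ j ≠ 0)
include hq h

theorem pne {a b : ℕ} (hab : a ≠ b) : q ^ a - q ^ b ≠ 0 := by
  rcases Nat.lt_or_gt_of_ne hab with h1 | h1
  · have : q ^ a - q ^ b = q ^ a * (1 - q ^ (b - a)) := by
      rw [mul_sub, ← pow_add, Nat.add_sub_cancel' h1.le, mul_one]
    rw [this]; exact mul_ne_zero (pow_ne_zero _ hq) (h _ (by omega))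
  · have : q ^ a - q ^ b = -(q ^ b * (1 - q ^ (a - b))) := by
      rw [mul_sub, ← pow_add, Nat.add_sub_cancel' h1.le, mul_one]; ring
    rw [this]; exact neg_ne_zero.2 (mul_ne_zero (pow_ne_zero _ hq) (h _ (by omega)))

theorem F1_H (s k : ℕ) (Y : K) (hY : Y = q ^ (4 * s + 2)) :
    F1 q (Y * q ^ 4) k * ((1 - Y * q ^ 2) * (Y - 1)) = (1 + q ^ (4 * k + 1)) * H1 q Y k *
      ((1 - Y * q ^ (4 * k + 2)) * (Y - q ^ (4 * k))) ∧
    F1 q Y k * ((1 - Y * q ^ 4) * (Y * q ^ 2 - 1)) = (1 + q ^ (4 * k + 1)) * H1 q Y k *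
      ((1 - Y * q ^ (4 * k + 4)) * (Y * q ^ 2 - q ^ (4 * k))) := by
  have key : (∏ j ∈ range k, (Y * q ^ 4 - q ^ (4 * j + 2)) * (1 - Y * q ^ 4 * q ^ (4 * j + 2))
      * (1 - q ^ (4 * j + 2)) / ((Y * q ^ 4 - q ^ (4 * j + 4)) * (1 - Y * q ^ 4 * q ^ (4 * j + 4))
      * (1 - q ^ (4 * j + 4)))) * ((1 - Y * q ^ 2) * (Y - 1))
      = (∏ j ∈ range k, (Y * q ^ 2 - q ^ (4 * j)) * (1 - Y * q ^ (4 * j + 2)) * (1 - q ^ (4 * j + 2)) /
    (q ^ 2 * (Y - q ^ (4 * j + 4)) * (1 - Y * q ^ (4 * j + 8)) * (1 - q ^ (4 * j + 4))))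
      * ((1 - Y * q ^ (4 * k + 2)) * (Y - q ^ (4 * k))) ∧
      (∏ j ∈ range k, (Y - q ^ (4 * j + 2)) * (1 - Y * q ^ (4 * j + 2)) * (1 - q ^ (4 * j + 2)) /
    ((Y - q ^ (4 * j + 4)) * (1 - Y * q ^ (4 * j + 4)) * (1 - q ^ (4 * j + 4))))
      * ((1 - Y * q ^ 4) * (Y * q ^ 2 - 1))
      = (∏ j ∈ range k, (Y * q ^ 2 - q ^ (4 * j)) * (1 - Y * q ^ (4 * j + 2)) * (1 - q ^ (4 * j + 2)) /
    (q ^ 2 * (Y - q ^ (4 * j + 4)) * (1 - Y * q ^ (4 * j + 8)) * (1 - q ^ (4 * j + 4))))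
      * ((1 - Y * q ^ (4 * k + 4)) * (Y * q ^ 2 - q ^ (4 * k))) := by
    induction k with
    | zero => simp
    | succ k ih =>
      obtain ⟨i1, i2⟩ := ih
      have n1 : Y - q ^ (4 * k + 4) ≠ 0 := by rw [hY]; exact pne hq h (by omega)
      have n2 : Y - q ^ (4 * k) ≠ 0 := by rw [hY]; exact pne hq h (by omega)
      have n3 : 1 - Y * q ^ (4 * k + 8) ≠ 0 := by rw [hY, ← pow_add]; exact h _ (by omega)
      have n4 : 1 - Y * q ^ (4 * k + 4) ≠ 0 := by rw [hY, ← pow_add]; exact h _ (by omega)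
      have n5 : 1 - q ^ (4 * k + 4) ≠ 0 := h _ (by omega)
      have e1 : Y * q ^ 4 - q ^ (4 * k + 4) = q ^ 4 * (Y - q ^ (4 * k)) := by ring
      have e2 : 1 - Y * q ^ 4 * q ^ (4 * k + 4) = 1 - Y * q ^ (4 * k + 8) := by ring
      constructor
      · rw [prod_range_succ, prod_range_succ, mul_right_comm, i1, e1, e2]
        field_simp
        ring
      · rw [prod_range_succ, prod_range_succ, mul_right_comm, i2]
        field_simp
        ring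
  constructor
  · rw [F1, H1, mul_assoc, key.1]; ring
  · rw [F1, H1, mul_assoc, key.2]; ring

theorem F1_step (s M : ℕ) (Y : K) (hY : Y = q ^ (4 * s + 2)) :
    (1 - q ^ 3 * Y) * ((1 - Y * q ^ 2) * (Y - 1)) * q * (∑ k ∈ range M, F1 q (Y * q ^ 4) k)
      - (1 - q * Y) * Y * ((1 - Y * q ^ 4) * (Y * q ^ 2 - 1)) * Y⁻¹ * ∑ k ∈ range M, F1 q Y k
      = -(q * (1 + q ^ 2 * Y) * H1 q Y M * (1 - Y * q ^ (4 * M + 4)) * (Y - q ^ (4 * M))
        * (1 - q ^ (4 * M))) := by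
  have hY0 : Y ≠ 0 := by rw [hY]; exact pow_ne_zero _ hq
  induction M with
  | zero => simp
  | succ M ih =>
    obtain ⟨a1, a2⟩ := F1_H hq h s M Y hY
    have n1 : Y - q ^ (4 * M + 4) ≠ 0 := by rw [hY]; exact pne hq h (by omega)
    have n3 : 1 - Y * q ^ (4 * M + 8) ≠ 0 := by rw [hY, ← pow_add]; exact h _ (by omega)
    have n5 : 1 - q ^ (4 * M + 4) ≠ 0 := h _ (by omega)
    have a3 : q * H1 q Y (M + 1) * (1 - Y * q ^ (4 * (M + 1) + 4)) * (Y - q ^ (4 * (M + 1)))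
        * (1 - q ^ (4 * (M + 1))) = H1 q Y M * ((Y * q ^ 2 - q ^ (4 * M))
          * (1 - Y * q ^ (4 * M + 2)) * (1 - q ^ (4 * M + 2))) := by
      rw [H1, H1, prod_range_succ, show 4 * (M + 1) + 4 = 4 * M + 8 by ring,
        show 4 * (M + 1) = 4 * M + 4 by ring]
      field_simp
      ring
    have a4 : Y * Y⁻¹ = 1 := mul_inv_cancel₀ hY0
    rw [sum_range_succ, sum_range_succ]
    linear_combination ih + (1 - q ^ 3 * Y) * q * a1 - (1 - q * Y) * a2 + (1 + q ^ 2 * Y) * a3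
      - (1 - q * Y) * ((1 - Y * q ^ 4) * (Y * q ^ 2 - 1)) * F1 q Y M * a4

theorem F1_sum (s M : ℕ) (hM : s < M) :
    q ^ s * (1 - q ^ 2) * (∏ j ∈ range s, (1 - q ^ (4 * j + 5))) * ∑ k ∈ range M, F1 q (q ^ (4 * s + 2)) k
      = (1 + q) * (1 - q ^ (4 * s + 2)) * ∏ j ∈ range s, (1 - q ^ (4 * j + 3)) := by
  induction s with
  | zero =>
    obtain ⟨M, rfl⟩ : ∃ m, M = m + 1 := ⟨M - 1, by omega⟩
    rw [sum_range_succ', sum_eq_zero]
    · simp [F1]; ring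
    · intro k _
      rw [F1, prod_eq_zero (i := 0) (by simp) (by simp), mul_zero]
  | succ s ih =>
    have h1 := ih (by omega)
    have h2 := F1_step hq h s M _ rfl
    have h3 : H1 q (q ^ (4 * s + 2)) M = 0 := by
      rw [H1, prod_eq_zero (i := s + 1) (by simpa using hM), mul_zero]
      rw [show q ^ (4 * s + 2) * q ^ 2 - q ^ (4 * (s + 1)) = 0 by ring]; simp
    have a4 : q ^ (4 * s + 2) * (q ^ (4 * s + 2))⁻¹ = 1 := mul_inv_cancel₀ (pow_ne_zero _ hq)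
    rw [h3, ← pow_add q (4 * s + 2) 4, show 4 * s + 2 + 4 = 4 * (s + 1) + 2 by ring] at h2
    have n1 : (1 - q ^ (4 * s + 4)) * (1 - q ^ (4 * s + 2)) ≠ 0 :=
      mul_ne_zero (h _ (by omega)) (h _ (by omega))
    apply mul_left_cancel₀ n1
    rw [prod_range_succ, prod_range_succ]
    set S := ∑ k ∈ range M, F1 q (q ^ (4 * s + 2)) k
    linear_combination (-(q ^ s * (1 - q ^ 2) * ∏ j ∈ range s, (1 - q ^ (4 * j + 5)))) * h2
      + (1 - q ^ (4 * s + 3)) * (1 - q ^ (4 * s + 6)) * (1 - q ^ (4 * s + 4)) * h1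
      + (q ^ s * (1 - q ^ 2) * ∏ j ∈ range s, (1 - q ^ (4 * j + 5))) * S *
        ((1 - q ^ (4 * s + 3)) * (1 - q ^ (4 * s + 6)) * (1 - q ^ (4 * s + 4))) * a4

end

end Pool.Agent.H.MP_c9c571_nt
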