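import Mathlib
import Pool.Agent.H.MP_4d1f21_nt.Q
import Pool.Agent.H.MP_c9c571_nt.A

open Finset Polynomial

namespace Pool.Agent.H.MP_c9c571_nt

open Pool.Agent.H.MP_4d1f21_nt Pool.Agent.H.MP_74870a_nt

def gam (r : ℕ) : ℚ := ∏ j ∈ range r, ((2 * j + 1 : ℚ) / (2 * j + 2))

noncomputable def hh (y : RatFunc ℚ) (K : ℕ) : RatFunc ℚ :=
  (∏ j ∈ range K, (1 - y * (y ^ 2) ^ j)) / ∏ j ∈ range K, (1 - y ^ 2 * (y ^ 2) ^ j)

theorem qne {j : ℕ} (hj : 0 < j) : 1 - (RatFunc.X : RatFunc ℚ) ^ j ≠ 0 := by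
  have h : (1 - X ^ j : ℚ[X]) ≠ 0 := by
    intro h
    have := congrArg (eval 0) h
    simp [hj.ne'] at this
  have h2 : 1 - (RatFunc.X : RatFunc ℚ) ^ j = algebraMap ℚ[X] (RatFunc ℚ) (1 - X ^ j) := by simp
  rw [h2]
  exact fun h0 => h (IsFractionRing.injective ℚ[X] (RatFunc ℚ) (by rw [h0, map_zero]))

theorem geo {A : Type*} [CommRing A] [Algebra ℚ A] {e : A} (he : e ^ 2 = 0) (m : ℕ) :
    ∑ i ∈ range m, (1 + e) ^ i = m + e * algebraMap ℚ A (m * (m - 1) / 2) := by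
  induction m with
  | zero => simp
  | succ m ih =>
    rw [sum_range_succ, ih, one_add_pow he]
    have : (((m + 1 : ℕ) : ℚ) * ((m + 1 : ℕ) - 1) / 2) = m * (m - 1) / 2 + m := by push_cast; ring
    rw [this, map_add, map_natCast]; push_cast; ring

variable {P : ℚ[X]} [Nontrivial (AdjoinRoot P)]

theorem rel_ratio {y : RatFunc ℚ} {e : AdjoinRoot P} (hy : Rel P y (1 + e)) (he : e ^ 2 = 0)
    (hK : ∀ j, 0 < j → 1 - y ^ j ≠ 0) (r : ℕ) :
    Rel P (Pp y 1 (2 * r) / Pp y 0 (2 * r))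
      (algebraMap ℚ _ (gam r) * (1 - e * algebraMap ℚ _ (r / 2))) := by
  rw [Pp_one, Pp_zero]
  induction r with
  | zero => simpa [gam] using Rel.one
  | succ r ih =>
    have h1 : (1 - y) ≠ 0 := by simpa using hK 1 one_pos
    have e1 : 1 - y * (y ^ 2) ^ r = (∑ i ∈ range (2 * r + 1), y ^ i) * (1 - y) := by
      rw [geom_sum_mul_neg]; ring
    have e2 : 1 - y ^ 2 * (y ^ 2) ^ r = (∑ i ∈ range (2 * r + 2), y ^ i) * (1 - y) := by
      rw [geom_sum_mul_neg]; ring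
    rw [prod_range_succ, prod_range_succ, mul_div_mul_comm, e1, e2, mul_div_mul_right _ _ h1,
      div_eq_mul_inv (∑ i ∈ range (2 * r + 1), y ^ i)]
    have r1 := Rel.sum (range (2 * r + 1)) fun i _ => hy.pow i
    have r2 := Rel.sum (range (2 * r + 2)) fun i _ => hy.pow i
    rw [geo he] at r1 r2
    have hr : (2 * r + 2 : ℚ) ≠ 0 := by positivity
    set φ := algebraMap ℚ (AdjoinRoot P)
    have c1 : ((2 * r + 1 : ℕ) : AdjoinRoot P) = φ (2 * r + 1) := by
      rw [← map_natCast φ]; push_cast; rfl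
    have c2 : ((2 * r + 2 : ℕ) : AdjoinRoot P) = φ (2 * r + 2) := by
      rw [← map_natCast φ]; push_cast; rfl
    have mm : ∀ a b c : ℚ, a * b = c → φ a * φ b = φ c := fun a b c h => by rw [← map_mul, h]
    have r3 := r2.inv (b := φ (1 / (2 * r + 2)) - e * φ ((2 * r + 1) / (2 * (2 * r + 2)))) (by
      rw [c2]
      have m1 := mm (2 * r + 2) (1 / (2 * r + 2)) 1 (by field_simp)
      have m2 := mm (2 * r + 2) ((2 * r + 1) / (2 * (2 * r + 2))) ((2 * r + 1) / 2) (by field_simp)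
      have m3 := mm (((2 * r + 2 : ℕ) : ℚ) * ((2 * r + 2 : ℕ) - 1) / 2) (1 / (2 * r + 2))
        ((2 * r + 1) / 2) (by push_cast; field_simp; ring)
      rw [map_one] at m1
      linear_combination m1 - e * m2 + e * m3 - (φ (((2 * r + 2 : ℕ) : ℚ) * ((2 * r + 2 : ℕ) - 1) / 2)
        * φ ((2 * r + 1) / (2 * (2 * r + 2)))) * he)
    convert ih.mul (r1.mul r3) using 1
    rw [c1, gam, prod_range_succ, ← gam, map_mul]
    have m1 := mm (2 * r + 1) (1 / (2 * r + 2)) ((2 * r + 1) / (2 * r + 2)) (by field_simp)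
    have m2 := mm (2 * r + 1) ((2 * r + 1) / (2 * (2 * r + 2)))
      ((2 * r + 1) ^ 2 / (2 * (2 * r + 2))) (by field_simp)
    have m3 := mm (((2 * r + 1 : ℕ) : ℚ) * ((2 * r + 1 : ℕ) - 1) / 2) (1 / (2 * r + 2))
        ((2 * r + 1) * (2 * r) / (2 * (2 * r + 2))) (by push_cast; field_simp; ring)
    have m4 := mm ((2 * r + 1) / (2 * r + 2)) (((r + 1 : ℕ) : ℚ) / 2)
        ((2 * r + 1) / 4) (by push_cast; field_simp; ring)
    have m5 := mm ((2 * r + 1) / (2 * r + 2)) ((r : ℚ) / 2)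
        ((2 * r + 1) * r / (2 * (2 * r + 2))) (by field_simp)
    have m6 : φ ((2 * r + 1) / 4) + φ ((2 * r + 1) * (2 * r) / (2 * (2 * r + 2)))
        = φ ((2 * r + 1) * r / (2 * (2 * r + 2))) + φ ((2 * r + 1) ^ 2 / (2 * (2 * r + 2))) := by
      rw [← map_add, ← map_add]; congr 1; field_simp; ring
    set a := φ (((2 * r + 1 : ℕ) : ℚ) * ((2 * r + 1 : ℕ) - 1) / 2)
    set b := φ ((2 * r + 1) / (2 * (2 * r + 2)))
    linear_combination φ (gam r) * (-(1 - e * φ (r / 2)) * m1 + e * m2 - e * m3 - e * m4 + e * m5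
      - e * m6 + (a * b - φ (r / 2) * (φ (2 * r + 1) * b - a * φ (1 / (2 * r + 2)))
        - e * φ (r / 2) * a * b) * he)

section
variable {y : RatFunc ℚ} {x : AdjoinRoot P} (hy : Rel P y x) (hK : ∀ j, 0 < j → 1 - y ^ j ≠ 0)
  {iv : ℕ → AdjoinRoot P} {n s : ℕ} (hn : n = 2 * s + 1) (he : (x ^ n - 1) ^ 2 = 0)
  (hiv : ∀ j, ¬ n ∣ j → (1 - x ^ j) * iv j = 1)
include hy hK hn he hiv

theorem rel_U (T : ℕ) : Rel P (Np y n 1 T / Np y n 0 T) (U x iv n T) := by
  have rN : ∀ p, Rel P (Np y n p T) (Np x n p T) := fun p => by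
    refine Rel.prod _ fun j _ => ?_
    split_ifs
    · exact Rel.one.sub (hy.pow _)
    · exact Rel.one
  have hu : IsUnit (Np x n 0 T) := by
    refine IsUnit.prod_iff.2 fun j _ => ?_
    split_ifs with h
    · exact IsUnit.of_mul_eq_one _ (hiv _ h.2)
    · exact isUnit_one
  obtain ⟨w, hw⟩ := hu.exists_right_inv
  rw [div_eq_mul_inv]
  convert (rN 1).mul ((rN 0).inv hw) using 1
  rw [← U_Np hiv, mul_assoc, hw, mul_one]

theorem hh_eq (K : ℕ) : hh y K = Np y n 1 (2 * K) / Np y n 0 (2 * K) *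
    (Pp (y ^ n) 1 (2 * K / n) / Pp (y ^ n) 0 (2 * K / n)) := by
  rw [hh, ← Pp_one, ← Pp_zero, Pp_split y (n := n) (by omega) 1, Pp_split y (n := n) (by omega) 0,
    mul_div_mul_comm]

theorem rel_lo (r k : ℕ) (hk : k ≤ s) : Rel P (hh y (n * r + k))
    (algebraMap ℚ _ (gam r) * U x iv n (2 * k) * (1 + (x ^ n - 1) *
      (r * (2 * lam x iv (2 * k) - lam x iv (2 * s)) - algebraMap ℚ _ (r / 2)))) := by
  have e1 : 2 * (n * r + k) = n * (2 * r) + 2 * k := by ring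
  have e2 : 2 * (n * r + k) / n = 2 * r := by
    rw [e1, Nat.mul_add_div (by omega), Nat.div_eq_of_lt (by omega), add_zero]
  rw [hh_eq hy hK hn he hiv, e2]
  have h1 := rel_ratio (y := y ^ n) (e := x ^ n - 1) (by simpa using hy.pow n) he
    (fun j hj => by rw [← pow_mul]; exact hK _ (Nat.mul_pos (by omega) hj)) r
  convert (rel_U hy hK hn he hiv _).mul h1 using 1
  rw [e1, U_block hn he hiv r (2 * k) (by omega)]
  linear_combination (algebraMap ℚ _ (gam r) * U x iv n (2 * k) *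
    (r * (2 * lam x iv (2 * k) - lam x iv (2 * s))) * algebraMap ℚ _ (r / 2)) * he

theorem rel_hi (r k : ℕ) (hk : s < k) (hk2 : k < n) :
    ∃ z, Rel P (hh y (n * r + k)) ((x ^ n - 1) * z) := by
  have e1 : 2 * (n * r + k) = n * (2 * r + 1) + (2 * k - n) := by
    rw [mul_add, mul_add, show 2 * (n * r) = n * (2 * r) by ring]; omega
  have e2 : 2 * (n * r + k) / n = 2 * r + 1 := by
    rw [e1, Nat.mul_add_div (by omega), Nat.div_eq_of_lt (by omega), add_zero]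
  rw [hh_eq hy hK hn he hiv, e2]
  have h1 := rel_ratio (y := y ^ n) (e := x ^ n - 1) (by simpa using hy.pow n) he
    (fun j hj => by rw [← pow_mul]; exact hK _ (Nat.mul_pos (by omega) hj)) r
  have e3 : Pp (y ^ n) 1 (2 * r + 1) / Pp (y ^ n) 0 (2 * r + 1)
      = Pp (y ^ n) 1 (2 * r) / Pp (y ^ n) 0 (2 * r) * (1 - y ^ (n * (2 * r + 1))) := by
    rw [Pp, Pp, prod_range_succ, prod_range_succ, ← Pp, ← Pp, if_pos (by omega), if_neg (by omega),
      pow_mul]
    ring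
  rw [e3]
  refine ⟨U x iv n (2 * (n * r + k)) * (algebraMap ℚ _ (gam r) *
    (1 - (x ^ n - 1) * algebraMap ℚ _ (r / 2))) * (-((2 * r + 1 : ℕ) : AdjoinRoot P)), ?_⟩
  convert (rel_U hy hK hn he hiv _).mul (h1.mul (Rel.one.sub (hy.pow (n * (2 * r + 1))))) using 1
  rw [pw he]; ring

end

theorem gam_eq (k : ℕ) : (∏ j ∈ range k, (1 / 2 + j : ℚ)) / k.factorial = gam k := by
  induction k with
  | zero => simp [gam]
  | succ k ih =>
    rw [gam, prod_range_succ, prod_range_succ, ← gam, ← ih, Nat.factorial_succ]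
    have : (k.factorial : ℚ) ≠ 0 := by positivity
    push_cast
    field_simp
    ring

theorem U_prod {A : Type*} [CommRing A] {x : A} {iv : ℕ → A} {n s : ℕ} (hn : n = 2 * s + 1)
    (k : ℕ) (hk : k ≤ s) :
    U x iv n (2 * k) = ∏ j ∈ range k, (1 - x ^ (2 * j + 1)) * iv (2 * j + 1 + 1) := by
  induction k with
  | zero => simp [U]
  | succ k ih => rw [U_succ hn k (by omega), prod_range_succ, ih (by omega), mul_assoc]

theorem ex_iv {A : Type*} [CommRing A] (x : A) (n : ℕ) (h : ∀ j, ¬ n ∣ j → IsUnit (1 - x ^ j)) :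
    ∃ iv : ℕ → A, ∀ j, ¬ n ∣ j → (1 - x ^ j) * iv j = 1 := by
  have : ∀ j, ∃ w, ¬ n ∣ j → (1 - x ^ j) * w = 1 := fun j => by
    by_cases hj : n ∣ j
    · exact ⟨0, fun h => absurd hj h⟩
    · obtain ⟨w, hw⟩ := (h j hj).exists_right_inv
      exact ⟨w, fun _ => hw⟩
  choose iv hiv using this
  exact ⟨iv, hiv⟩

theorem sum_blocks {M : Type*} [AddCommMonoid M] (f : ℕ → M) (n m : ℕ) :
    ∑ k ∈ range (m * n), f k = ∑ r ∈ range m, ∑ k ∈ range n, f (n * r + k) := by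
  induction m with
  | zero => simp
  | succ m ih => rw [add_mul, one_mul, sum_range_add, ih, sum_range_succ, mul_comm]

end Pool.Agent.H.MP_c9c571_nt
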