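import Mathlib

open Finset

namespace Pool.Agent.H.MP_c9c571_nt

variable {K : Type*} [Field K]

def F2 (q Y : K) (k : ℕ) : K := q ^ (2 * k) *
  ∏ j ∈ range k, (Y - q ^ (2 * j + 1)) * (1 - Y * q ^ (2 * j + 1)) * (1 - q ^ (4 * j + 2)) /
    (Y * (1 - q ^ (2 * j + 2)) ^ 2 * (1 - q ^ (4 * j + 4)))

def H2 (q Y : K) (k : ℕ) : K :=
  ∏ j ∈ range k, (Y * q ^ 3 - q ^ (2 * j)) * (1 - Y * q ^ (2 * j + 1)) * (1 - q ^ (4 * j + 2)) /
    (Y * q ^ 3 * (1 - q ^ (2 * j + 2)) ^ 2 * (1 - q ^ (4 * j + 4)))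

section
variable {q : K} (hq : q ≠ 0) (h : ∀ j, 0 < j → 1 - q ^ j ≠ 0)
include hq h

theorem F2_H (k : ℕ) (Y : K) (hY : Y ≠ 0) :
    F2 q (Y * q ^ 4) k * ((1 - Y * q) * (1 - Y * q ^ 3)) = q ^ (2 * k) * H2 q Y k *
      ((1 - Y * q ^ (2 * k + 1)) * (1 - Y * q ^ (2 * k + 3))) ∧
    F2 q Y k * ((1 - Y * q) * (1 - Y * q ^ 3)) = q ^ (2 * k) * H2 q Y k *
      ((Y * q ^ 3 - q ^ (2 * k)) * (Y * q - q ^ (2 * k))) := by
  have key : (∏ j ∈ range k, (Y * q ^ 4 - q ^ (2 * j + 1)) * (1 - Y * q ^ 4 * q ^ (2 * j + 1))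
      * (1 - q ^ (4 * j + 2)) / (Y * q ^ 4 * (1 - q ^ (2 * j + 2)) ^ 2 * (1 - q ^ (4 * j + 4))))
      * ((1 - Y * q) * (1 - Y * q ^ 3)) = H2 q Y k *
      ((1 - Y * q ^ (2 * k + 1)) * (1 - Y * q ^ (2 * k + 3))) ∧
      (∏ j ∈ range k, (Y - q ^ (2 * j + 1)) * (1 - Y * q ^ (2 * j + 1)) * (1 - q ^ (4 * j + 2)) /
      (Y * (1 - q ^ (2 * j + 2)) ^ 2 * (1 - q ^ (4 * j + 4)))) * ((1 - Y * q) * (1 - Y * q ^ 3))
      = H2 q Y k * ((Y * q ^ 3 - q ^ (2 * k)) * (Y * q - q ^ (2 * k))) := by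
    induction k with
    | zero => simp [H2]; ring
    | succ k ih =>
      obtain ⟨i1, i2⟩ := ih
      have n4 : 1 - q ^ (2 * k + 2) ≠ 0 := h _ (by omega)
      have n5 : 1 - q ^ (4 * k + 4) ≠ 0 := h _ (by omega)
      constructor
      · rw [H2, prod_range_succ, prod_range_succ, ← H2, mul_right_comm, i1]
        field_simp
        ring
      · rw [H2, prod_range_succ, prod_range_succ, ← H2, mul_right_comm, i2]
        field_simp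
        ring
  constructor
  · rw [F2, mul_assoc, key.1]; ring
  · rw [F2, mul_assoc, key.2]; ring

theorem F2_step (M : ℕ) (Y : K) (hY : Y ≠ 0) :
    ((1 - Y * q) * (1 - Y * q ^ 3)) * ((1 - q ^ 3 * Y) ^ 2 * (∑ k ∈ range M, F2 q (Y * q ^ 4) k)
      - q ^ 2 * (1 - q * Y) ^ 2 * ∑ k ∈ range M, F2 q Y k)
      = q ^ 3 * Y * (q ^ 4 * Y ^ 2 - 1) * (H2 q Y M * (1 - q ^ (2 * M)) ^ 2 * (1 - q ^ (4 * M))) := by
  induction M with
  | zero => simp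
  | succ M ih =>
    obtain ⟨a1, a2⟩ := F2_H hq h M Y hY
    have n4 : 1 - q ^ (2 * M + 2) ≠ 0 := h _ (by omega)
    have n5 : 1 - q ^ (4 * M + 4) ≠ 0 := h _ (by omega)
    have a3 : q ^ 3 * Y * (H2 q Y (M + 1) * (1 - q ^ (2 * (M + 1))) ^ 2 * (1 - q ^ (4 * (M + 1))))
        = H2 q Y M * ((Y * q ^ 3 - q ^ (2 * M)) * (1 - Y * q ^ (2 * M + 1))
          * (1 - q ^ (4 * M + 2))) := by
      rw [H2, H2, prod_range_succ, show 2 * (M + 1) = 2 * M + 2 by ring,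
        show 4 * (M + 1) = 4 * M + 4 by ring]
      field_simp
    rw [sum_range_succ, sum_range_succ]
    linear_combination ih + (1 - q ^ 3 * Y) ^ 2 * a1 - q ^ 2 * (1 - q * Y) ^ 2 * a2
      - (q ^ 4 * Y ^ 2 - 1) * a3

theorem F2_sum (v M : ℕ) (hM : 2 * v < M) :
    (∏ j ∈ range v, (1 - q ^ (4 * j + 4))) ^ 2 * ∑ k ∈ range M, F2 q (q ^ (4 * v + 1)) k
      = q ^ (2 * v) * (∏ j ∈ range v, (1 - q ^ (4 * j + 2))) ^ 2 := by
  induction v with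
  | zero =>
    obtain ⟨M, rfl⟩ : ∃ m, M = m + 1 := ⟨M - 1, by omega⟩
    rw [sum_range_succ', sum_eq_zero]
    · simp [F2]
    · intro k _
      rw [F2, prod_eq_zero (i := 0) (by simp) (by simp), mul_zero]
  | succ v ih =>
    have h1 := ih (by omega)
    have h2 := F2_step hq h M (q ^ (4 * v + 1)) (pow_ne_zero _ hq)
    have h3 : H2 q (q ^ (4 * v + 1)) M = 0 := by
      rw [H2, prod_eq_zero (i := 2 * (v + 1)) (by simpa using hM)]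
      rw [show q ^ (4 * v + 1) * q ^ 3 - q ^ (2 * (2 * (v + 1))) = 0 by ring]; simp
    rw [h3, ← pow_add q (4 * v + 1) 4, show 4 * v + 1 + 4 = 4 * (v + 1) + 1 by ring] at h2
    have n1 : (1 - q ^ (4 * v + 2)) * (1 - q ^ (4 * v + 4)) ≠ 0 :=
      mul_ne_zero (h _ (by omega)) (h _ (by omega))
    apply mul_left_cancel₀ n1
    rw [prod_range_succ, prod_range_succ]
    linear_combination (∏ j ∈ range v, (1 - q ^ (4 * j + 4))) ^ 2 * h2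
      + (1 - q ^ (4 * v + 2)) ^ 3 * (1 - q ^ (4 * v + 4)) * q ^ 2 * h1

end

end Pool.Agent.H.MP_c9c571_nt
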